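import Pool.Agent.H30.VM.TargetsB
import Pool.Agent.H30.VM.TargetsC
import Pool.Agent.H97.VG.BI

/-!
# MP_70ba79_ag, module BIT of the board `vmp_modules`
-/

set_option autoImplicit false

namespace Pool.Agent.H65.VM

open MvPolynomial SC Pool.Agent.H27.LV Pool.Agent.H17.VG
open Pool.Agent.H17.CI (Tup IlT PQT TxT frmT upT RatT)
open Pool.Agent.H30.VM (T_WDT T_BIT SysT Pt UtT)

section

variable {R K : Type} [Field R] [Field K] [Algebra R K] {n : ℕ} {ι : Type} {i₀ : ι}

theorem sym_zero (i₀ : ι) (F : Tup ι K n) : Pool.Agent.H30.VM.Sym i₀ F (0 : Op R K n) 0 0 := by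
  refine ⟨rfl, fun i => ?_⟩
  rw [Pool.Agent.H97.VG.opF_nul]
  simp

theorem sym_add {F : Tup ι K n} {τ τ' : Op R K n} {l l' : ι → K} {G G' : Tup ι K n}
    (h : Pool.Agent.H30.VM.Sym i₀ F τ l G) (h' : Pool.Agent.H30.VM.Sym i₀ F τ' l' G') :
    Pool.Agent.H30.VM.Sym i₀ F (τ + τ') (l + l') (G + G') := by
  refine ⟨?_, fun i => ?_⟩
  · rw [Pi.add_apply, h.1, h'.1, add_zero]
  · rw [Pool.Agent.H97.VG.opF_add', Pi.add_apply, Pi.add_apply, ← h.2 i, ← h'.2 i, C_add]
    ring

theorem sym_smul {F : Tup ι K n} {τ : Op R K n} {l : ι → K} {G : Tup ι K n} (a : K)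
    (h : Pool.Agent.H30.VM.Sym i₀ F τ l G) : Pool.Agent.H30.VM.Sym i₀ F (a • τ) (a • l) (a • G) := by
  refine ⟨?_, fun i => ?_⟩
  · rw [Pi.smul_apply, h.1, smul_zero]
  · rw [Pool.Agent.H97.VG.opF_smul', Pi.smul_apply, Pi.smul_apply, ← h.2 i, smul_eq_mul, C_mul,
      ← C_mul']
    ring

theorem sym_sum {κ : Type} (s : Finset κ) {F : Tup ι K n} {τ : κ → Op R K n} {l : κ → ι → K}
    {G : κ → Tup ι K n} (h : ∀ c ∈ s, Pool.Agent.H30.VM.Sym i₀ F (τ c) (l c) (G c)) :
    Pool.Agent.H30.VM.Sym i₀ F (∑ c ∈ s, τ c) (∑ c ∈ s, l c) (∑ c ∈ s, G c) := by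
  classical
  induction s using Finset.induction_on with
  | empty =>
    rw [Finset.sum_empty, Finset.sum_empty, Finset.sum_empty]
    exact sym_zero i₀ F
  | insert i s hi ih =>
    rw [Finset.sum_insert hi, Finset.sum_insert hi, Finset.sum_insert hi]
    exact sym_add (h i (Finset.mem_insert_self i s))
      (ih fun c hc => h c (Finset.mem_insert_of_mem hc))

theorem sym_D {e : ι → ℕ} {F : Tup ι K n} {D : Derivation R K K} (hS : SysT i₀ e F D) :
    Pool.Agent.H30.VM.Sym i₀ F ((D, 0) : Op R K n) 0 0 := by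
  refine ⟨rfl, fun i => ?_⟩
  have h : opF ((D, 0) : Op R K n) (F i) = cD D (F i) := by simp [opF]
  rw [h, hS.base i]
  simp

theorem x_mem_utT (i₀ : ι) (F : Tup ι K n) (x : Fin (n + 1) → K) (W : Submodule K (Tup ι K n)) :
    x ∈ UtT R i₀ F x W := Submodule.subset_span (Or.inr rfl)

theorem Dx_mem_utT {e : ι → ℕ} {F : Tup ι K n} {D : Derivation R K K} (hS : SysT i₀ e F D)
    (x : Fin (n + 1) → K) (W : Submodule K (Tup ι K n)) :
    (fun i => D (x i)) ∈ UtT R i₀ F x W :=
  Submodule.subset_span (Or.inl ⟨(D, 0), 0, 0, W.zero_mem, sym_D hS,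
    (Pool.Agent.H97.VG.opV_D D x).symm⟩)

/-- the velocities of the operators with symbols in a span -/
theorem utT_le (hWDT : Pool.Agent.H30.VM.T_WDT) {e : ι → ℕ} {F : Tup ι K n} {D : Derivation R K K}
    (hS : SysT i₀ e F D) (x : Fin (n + 1) → K) (g : Set (Tup ι K n))
    (N : Submodule K (Fin (n + 1) → K)) (hx : x ∈ N) (hD : (fun i => D (x i)) ∈ N)
    (h : ∀ G ∈ g, ∃ (τ : Op R K n) (l : ι → K), Pool.Agent.H30.VM.Sym i₀ F τ l G ∧ opV τ x ∈ N) :
    UtT R i₀ F x (Submodule.span K g) ≤ N := by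
  have key : ∀ G ∈ Submodule.span K g, ∃ (τ : Op R K n) (l : ι → K),
      Pool.Agent.H30.VM.Sym i₀ F τ l G ∧ opV τ x ∈ N := by
    intro G hG
    induction hG using Submodule.span_induction with
    | mem G hG => exact h G hG
    | zero => exact ⟨0, 0, sym_zero i₀ F, by rw [Pool.Agent.H97.VG.opV_nul]; exact N.zero_mem⟩
    | add G G' _ _ h1 h2 =>
      obtain ⟨τ, l, h3, h4⟩ := h1
      obtain ⟨τ', l', h5, h6⟩ := h2
      exact ⟨τ + τ', l + l', sym_add h3 h5,
        by rw [Pool.Agent.H97.VG.opV_add']; exact N.add_mem h4 h6⟩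
    | smul a G _ h1 =>
      obtain ⟨τ, l, h3, h4⟩ := h1
      exact ⟨a • τ, a • l, sym_smul a h3,
        by rw [Pool.Agent.H97.VG.opV_smul']; exact N.smul_mem a h4⟩
  unfold UtT
  rw [Submodule.span_le]
  rintro w (⟨τ, l, G, h1, h2, h3⟩ | h1)
  · obtain ⟨τ', l', h4, h5⟩ := key _ h1
    obtain ⟨c, hc⟩ := hWDT R K n ι i₀ e F D hS τ τ' l l' G h2 h4
    rw [SetLike.mem_coe, h3, hc]
    exact N.add_mem h5 (N.smul_mem c hD)
  · rw [Set.mem_singleton_iff.1 h1]
    exact hx

open Classical in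
/-- the family with one component -/
noncomputable def sng (K : Type) [Field K] {e : ι → ℕ} (p : Fin (n + 1))
    (a : Σ i, Mon (n + 1) (e i)) : Tup ι K n :=
  fun i => if i = a.1 then X p * mono K a.2.1 else 0

theorem sng_homog {e : ι → ℕ} (p : Fin (n + 1)) (a : Σ i, Mon (n + 1) (e i)) (i : ι) :
    (sng (n := n) K p a i).IsHomogeneous (e i + 1) := by
  unfold sng
  split_ifs with h
  · subst h
    have h2 := (isHomogeneous_X K p).mul (isHomogeneous_mono (K := K) a.2)
    rwa [Nat.add_comm 1] at h2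
  · exact isHomogeneous_zero _ _ _

theorem sum_sng [Fintype ι] {e : ι → ℕ} (ξ : Fin (n + 1) → K)
    (q : (Σ i, Mon (n + 1) (e i)) → K) :
    (∑ p, ∑ a, (ξ p * q a) • sng K p a : Tup ι K n) = fun i => lin ξ * frmT q i := by
  classical
  funext i
  rw [Finset.sum_apply]
  unfold frmT
  rw [Pool.Agent.H97.VG.lin_mul_frm]
  refine Finset.sum_congr rfl fun p _ => ?_
  rw [Finset.sum_apply, Fintype.sum_sigma, Finset.sum_eq_single i]
  · refine Finset.sum_congr rfl fun M _ => ?_
    simp only [Pi.smul_apply, sng, if_true]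
    rw [C_mul']
  · intro j _ hj
    refine Finset.sum_eq_zero fun M _ => ?_
    simp only [Pi.smul_apply, sng]
    rw [if_neg (Ne.symm hj), smul_zero]
  · intro h
    exact absurd (Finset.mem_univ i) h

end

theorem pf_BIT (hWDT : Pool.Agent.H30.VM.T_WDT) : Pool.Agent.H30.VM.T_BIT := by
  classical
  intro R K _ _ _ _ n ι _ i₀ e F D Z x hS hP
  set N : Submodule K (Fin (n + 1) → K) := Submodule.span K {x, fun i => D (x i)} with hN
  have h1 : ∀ (p : Fin (n + 1)) (a : Σ i, Mon (n + 1) (e i)), ∃ (τ : Op R K n) (l : ι → K),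
      Pool.Agent.H30.VM.Sym i₀ F τ l (sng K p a) := fun p a => hS.surj _ (sng_homog p a)
  choose t lt ht using h1
  have hsym : ∀ (ξ : Fin (n + 1) → K) (q : (Σ i, Mon (n + 1) (e i)) → K),
      Pool.Agent.H30.VM.Sym i₀ F (∑ p, ∑ a, (ξ p * q a) • t p a) (∑ p, ∑ a, (ξ p * q a) • lt p a)
        (fun i => lin ξ * frmT q i) := by
    intro ξ q
    rw [← sum_sng]
    exact sym_sum _ fun p _ => sym_sum _ fun a _ => sym_smul _ (ht p a)
  let B : Vx x →ₗ[K] ((Σ i, Mon (n + 1) (e i)) → K) →ₗ[K] ((Fin (n + 1) → K) ⧸ N) :=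
    LinearMap.mk₂ K (fun ξ q => ∑ p, ∑ a, (ξ.1 p * q a) • N.mkQ (opV (t p a) x))
      (by
        intro a b q
        rw [← Finset.sum_add_distrib]
        refine Finset.sum_congr rfl fun i _ => ?_
        rw [← Finset.sum_add_distrib]
        refine Finset.sum_congr rfl fun M _ => ?_
        rw [← add_smul, ← add_mul]
        rfl)
      (by
        intro c a q
        rw [Finset.smul_sum]
        refine Finset.sum_congr rfl fun i _ => ?_
        rw [Finset.smul_sum]
        refine Finset.sum_congr rfl fun M _ => ?_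
        rw [smul_smul, ← mul_assoc]
        rfl)
      (by
        intro a q q'
        rw [← Finset.sum_add_distrib]
        refine Finset.sum_congr rfl fun i _ => ?_
        rw [← Finset.sum_add_distrib]
        refine Finset.sum_congr rfl fun M _ => ?_
        rw [← add_smul, ← mul_add]
        rfl)
      (by
        intro c a q
        rw [Finset.smul_sum]
        refine Finset.sum_congr rfl fun i _ => ?_
        rw [Finset.smul_sum]
        refine Finset.sum_congr rfl fun M _ => ?_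
        rw [smul_smul, mul_left_comm]
        rfl)
  have hB : ∀ (ξ : Vx x) (q : (Σ i, Mon (n + 1) (e i)) → K), B ξ q =
      N.mkQ (opV (∑ p, ∑ a, (ξ.1 p * q a) • t p a) x) := by
    intro ξ q
    rw [Pool.Agent.H97.VG.opV_sum', map_sum]
    change ∑ p, ∑ a, (ξ.1 p * q a) • N.mkQ (opV (t p a) x) = _
    refine Finset.sum_congr rfl fun i _ => ?_
    rw [Pool.Agent.H97.VG.opV_sum', map_sum]
    refine Finset.sum_congr rfl fun M _ => ?_
    rw [Pool.Agent.H97.VG.opV_smul', map_smul]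
  refine ⟨B, fun P => ?_⟩
  set W := Submodule.span K {G : Tup ι K n | ∃ p ∈ P, G = fun i => lin p.1.1 * frmT p.2 i}
    with hW
  have hNU : N ≤ UtT R i₀ F x W := by
    rw [hN, Submodule.span_le]
    rintro w (h | h)
    · rw [h]
      exact x_mem_utT i₀ F x W
    · rw [Set.mem_singleton_iff.1 h]
      exact Dx_mem_utT hS x W
  have hmap : (UtT R i₀ F x W).map N.mkQ = Submodule.span K {w | ∃ p ∈ P, w = B p.1 p.2} := by
    apply le_antisymm
    · rw [Submodule.map_le_iff_le_comap]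
      refine utT_le hWDT hS x _ _ ?_ ?_ ?_
      · rw [Submodule.mem_comap]
        have h2 : N.mkQ x = 0 := by
          rw [← LinearMap.mem_ker, Submodule.ker_mkQ]
          exact Submodule.subset_span (Or.inl rfl)
        rw [h2]
        exact Submodule.zero_mem _
      · rw [Submodule.mem_comap]
        have h2 : N.mkQ (fun i => D (x i)) = 0 := by
          rw [← LinearMap.mem_ker, Submodule.ker_mkQ]
          exact Submodule.subset_span (Or.inr rfl)
        rw [h2]
        exact Submodule.zero_mem _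
      · rintro G ⟨p, hp, rfl⟩
        refine ⟨_, _, hsym p.1.1 p.2, ?_⟩
        rw [Submodule.mem_comap, ← hB]
        exact Submodule.subset_span ⟨p, hp, rfl⟩
    · rw [Submodule.span_le]
      rintro w ⟨p, hp, rfl⟩
      rw [hB]
      exact Submodule.mem_map_of_mem (Submodule.subset_span (Or.inl ⟨_, _, _,
        Submodule.subset_span ⟨p, hp, rfl⟩, hsym p.1.1 p.2, rfl⟩))
  rw [Pool.Agent.H97.VG.finrank_map_mkQ N _ hNU, hmap, Pool.Agent.H97.VG.finrank_pair hP.dx]

end Pool.Agent.H65.VM
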