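import Mathlib
import Pool.Agent.H22.VM.Targets

/-!
# Vinogradov mean values, module LN: polynomials with prescribed Taylor coefficients
-/

set_option autoImplicit false

open Finset Polynomial

namespace Pool.Agent.H65.VM

open Pool.Agent.H22.VM

/-- the polynomial with the coefficients `h` in degrees `d + 1, …, d + l` -/
noncomputable def pol {R : Type} [CommRing R] (d l : ℕ) (h : Fin l → R) : R[X] :=
  ∑ j : Fin l, C (h j) * X ^ (d + 1 + (j : ℕ))

theorem pol_add {R : Type} [CommRing R] (d l : ℕ) (h h' : Fin l → R) :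
    pol d l (h + h') = pol d l h + pol d l h' := by
  simp [pol, add_mul, Finset.sum_add_distrib]

theorem pol_smul {R : Type} [CommRing R] (d l : ℕ) (a : R) (h : Fin l → R) :
    pol d l (a • h) = C a * pol d l h := by
  simp [pol, Finset.mul_sum, mul_assoc]

theorem pol_natDegree {R : Type} [CommRing R] (d l : ℕ) (h : Fin l → R) :
    (pol d l h).natDegree ≤ d + l := by
  refine natDegree_sum_le_of_forall_le _ _ fun j _ => ?_
  refine le_trans (natDegree_C_mul_X_pow_le _ _) ?_
  have := j.2
  omega

theorem pol_dvd {R : Type} [CommRing R] (d l : ℕ) (h : Fin l → R) : (X : R[X]) ^ (d + 1) ∣ pol d l h := by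
  refine Finset.dvd_sum fun j _ => ?_
  exact ⟨C (h j) * X ^ (j : ℕ), by ring⟩

theorem pol_coeff {R : Type} [CommRing R] (d l : ℕ) (h : Fin l → R) (j : Fin l) :
    (pol d l h).coeff (d + 1 + j) = h j := by
  unfold pol
  rw [finsetSum_coeff, Finset.sum_eq_single j]
  · simp
  · intro i _ hij
    rw [coeff_C_mul, coeff_X_pow, if_neg, mul_zero]
    intro h1
    apply hij
    apply Fin.ext
    omega
  · simp

/-- injectivity modulo `p` -/
theorem inj_mod {p : ℕ} [Fact p.Prime] {d l : ℕ} (hk : d + l < p) (u : ZMod p) (hu : u ≠ 0)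
    (h : Fin l → ZMod p) (hT : ∀ i, 1 ≤ i → i ≤ l → (taylor u (pol d l h)).coeff i = 0) : h = 0 := by
  set Q := pol d l h with hQ
  -- the derivative is divisible by `(X - u)^l`
  have h1 : (X : (ZMod p)[X]) ^ l ∣ taylor u (derivative Q) := by
    rw [X_pow_dvd_iff]
    intro i hi
    have h2 : taylor u (derivative Q) = derivative (taylor u Q) := by
      rw [taylor_apply, taylor_apply, derivative_comp]
      simp
    rw [h2, coeff_derivative, hT (i + 1) (by omega) (by omega), zero_mul]
  have h2 : (X - C u) ^ l ∣ derivative Q := by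
    obtain ⟨G, hG⟩ := h1
    refine ⟨taylor (-u) G, ?_⟩
    have h3 := congrArg (taylor (-u)) hG
    rw [taylor_taylor, neg_add_cancel, taylor_zero, taylor_mul, taylor_pow, taylor_X] at h3
    rw [h3]
    simp [sub_eq_add_neg]
  have h3 : (X : (ZMod p)[X]) ^ d ∣ derivative Q := by
    have h4 := pol_dvd d l h
    rw [← hQ, X_pow_dvd_iff] at h4
    rw [X_pow_dvd_iff]
    intro i hi
    rw [coeff_derivative, h4 (i + 1) (by omega), zero_mul]
  have h4 : (X : (ZMod p)[X]) ^ d * (X - C u) ^ l ∣ derivative Q := by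
    refine IsCoprime.mul_dvd ?_ h3 h2
    refine IsCoprime.pow ?_
    refine ⟨C (u⁻¹), -C (u⁻¹), ?_⟩
    have h5 : C u⁻¹ * C u = (1 : (ZMod p)[X]) := by rw [← C_mul, inv_mul_cancel₀ hu, C_1]
    linear_combination h5
  have h5 : derivative Q = 0 := by
    by_contra hne
    have h6 := natDegree_le_of_dvd h4 hne
    have h7 : ((X : (ZMod p)[X]) ^ d * (X - C u) ^ l).natDegree = d + l := by
      rw [(monic_X_pow d).natDegree_mul ((monic_X_sub_C u).pow l), natDegree_X_pow,
        (monic_X_sub_C u).natDegree_pow, natDegree_X_sub_C, mul_one]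
    have h8 : Q.natDegree ≤ d + l := pol_natDegree d l h
    by_cases h0 : Q.natDegree = 0
    · apply hne
      exact derivative_of_natDegree_zero h0
    · have h9 := natDegree_derivative_lt (p := Q) h0
      omega
  funext j
  have h6 := congrArg (fun P => P.coeff (d + j)) h5
  simp only [coeff_derivative, coeff_zero] at h6
  have h7 := pol_coeff d l h j
  rw [← hQ] at h7
  have h8 : d + (j : ℕ) + 1 = d + 1 + j := by ring
  rw [h8, h7] at h6
  rcases mul_eq_zero.1 h6 with h9 | h9
  · simpa using h9
  · exfalso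
    have h10 : ((d + (j : ℕ) + 1 : ℕ) : ZMod p) = 0 := by
      push_cast
      push_cast at h9
      exact h9
    rw [ZMod.natCast_eq_zero_iff] at h10
    have := Nat.le_of_dvd (by omega) h10
    have := j.2
    omega

/-- the linear map of Taylor coefficients -/
noncomputable def TT {R : Type} [CommRing R] (d l : ℕ) (u : R) : (Fin l → R) →ₗ[R] (Fin l → R) where
  toFun h := fun i => (taylor u (pol d l h)).coeff ((i : ℕ) + 1)
  map_add' h h' := by
    funext i
    simp [pol_add]
  map_smul' a h := by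
    funext i
    simp [pol_smul, taylor_mul]

theorem surj_mod {p : ℕ} [Fact p.Prime] {d l : ℕ} (hk : d + l < p) (u : ZMod p) (hu : u ≠ 0) :
    Function.Surjective (TT (R := ZMod p) d l u) := by
  rw [← LinearMap.injective_iff_surjective, injective_iff_map_eq_zero]
  intro h hh
  refine inj_mod hk u hu h fun i hi hil => ?_
  have := congrFun hh ⟨i - 1, by omega⟩
  simp only [TT, LinearMap.coe_mk, AddHom.coe_mk, Pi.zero_apply] at this
  rwa [Nat.sub_add_cancel hi] at this

theorem pol_map {R S : Type} [CommRing R] [CommRing S] (f : R →+* S) (d l : ℕ) (h : Fin l → R) :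
    (pol d l h).map f = pol d l (fun j => f (h j)) := by
  simp [pol, Polynomial.map_sum]

theorem TT_map {R S : Type} [CommRing R] [CommRing S] (f : R →+* S) (d l : ℕ) (u : R) (h : Fin l → R)
    (i : Fin l) : f (TT d l u h i) = TT d l (f u) (fun j => f (h j)) i := by
  simp only [TT, LinearMap.coe_mk, AddHom.coe_mk]
  rw [← pol_map, ← coeff_map, map_taylor]

/-- Newton iteration -/
theorem newton {p : ℕ} [Fact p.Prime] {d l : ℕ} (hk : d + l < p) (u : ℤ) (hu : ¬ (p : ℤ) ∣ u) (m : ℕ) :
    ∀ c : Fin l → ℤ, ∃ h : Fin l → ℤ, ∀ i, (p : ℤ) ^ m ∣ TT d l u h i - c i := by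
  induction m with
  | zero => exact fun c => ⟨0, fun i => by simp⟩
  | succ m ih =>
    intro c
    obtain ⟨h, hh⟩ := ih c
    choose dd hd using hh
    have hu' : ((u : ℤ) : ZMod p) ≠ 0 := by
      rw [Ne, ZMod.intCast_zmod_eq_zero_iff_dvd]
      exact hu
    obtain ⟨g, hg⟩ := surj_mod hk _ hu' (fun i => ((-dd i : ℤ) : ZMod p))
    set g' : Fin l → ℤ := fun i => ((g i).val : ℤ) with hg'
    have h1 : ∀ i, (p : ℤ) ∣ TT d l u g' i + dd i := by
      intro i
      rw [← ZMod.intCast_zmod_eq_zero_iff_dvd]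
      have h2 := TT_map (Int.castRingHom (ZMod p)) d l u g' i
      simp only [eq_intCast] at h2
      have h3 : (fun j => ((g' j : ℤ) : ZMod p)) = g := by
        funext j
        simp [hg']
      rw [h3] at h2
      push_cast
      rw [h2, hg]
      push_cast
      ring
    refine ⟨h + (p : ℤ) ^ m • g', fun i => ?_⟩
    rw [map_add, map_smul]
    obtain ⟨q, hq⟩ := h1 i
    refine ⟨q, ?_⟩
    have h2 := hd i
    simp only [Pi.add_apply, Pi.smul_apply, smul_eq_mul]
    rw [pow_succ]
    linear_combination h2 + (p : ℤ) ^ m * hq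

/-- LN -/
theorem ln : T_LN := by
  intro p k l m u hp hk hl hlk hu c
  have : Fact p.Prime := ⟨hp⟩
  obtain ⟨h, hh⟩ := newton (d := k - l) (l := l) (by omega) u hu m (fun i : Fin l => c (i + 1))
  refine ⟨pol (k - l) l h, ?_, pol_dvd _ _ _, fun i hi hil => ?_⟩
  · have := pol_natDegree (k - l) l h
    omega
  · have := hh ⟨i - 1, by omega⟩
    simp only [TT, LinearMap.coe_mk, AddHom.coe_mk] at this
    rwa [Nat.sub_add_cancel hi] at this

end Pool.Agent.H65.VM
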