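import Mathlib
import Pool.Agent.H22.VM.Targets

/-!
# Vinogradov mean values, module SG: the stage lemma
-/

set_option autoImplicit false

open Finset Polynomial

namespace Pool.Agent.H65.VM

open Pool.Agent.H22.VM

/-- SG -/
theorem sg (h_EX : T_EX) (h_LN : T_LN) : T_SG := by
  intro p k l m a b n' ξ η u hp hk hl hlk ha hm h1 h2 hξη ι Ω _ w R r F hInv P hP
  obtain ⟨hn, hadd, hint, -, -⟩ := h_EX
  have hp0 : (p : ℤ) ≠ 0 := by exact_mod_cast hp.ne_zero
  have hpR : (p : ℝ) ≠ 0 := by exact_mod_cast hp.ne_zero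
  set m' := l * (a + n') with hm'
  have hm'm : m' ≤ m := by
    refine le_trans h2 (le_trans ?_ hm)
    exact Nat.mul_le_mul_right _ (by omega)
  set u0 : ℤ := ξ - η with hu0
  obtain ⟨Q, hQd, hQX, hQc⟩ := h_LN p k l m' u0 hp hk hl hlk.le hξη
    (fun i => P.coeff i * (p : ℤ) ^ ((l - i) * a))
  set P2 : ℤ[X] := C ((p : ℤ) ^ (m - m')) * Q.comp (X - C η) with hP2
  have hP2d : P2.natDegree ≤ k := by
    refine le_trans (natDegree_C_mul_le _ _) ?_
    rw [natDegree_comp, natDegree_X_sub_C, mul_one]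
    exact hQd
  obtain ⟨T, hTw, φ, hφ, hT⟩ := hInv P2 hP2d
  have hev : ∀ x : ℤ, P2.eval x = (p : ℤ) ^ (m - m') * Q.eval (x - η) := by
    intro x
    simp [hP2, eval_comp]
  have hph : ∀ x : ℤ, ((P2.eval x : ℤ) : ℝ) / ((p ^ m : ℕ) : ℝ) = ((Q.eval (x - η) : ℤ) : ℝ) / (p : ℝ) ^ m' := by
    intro x
    rw [hev]
    push_cast
    have h3 : (p : ℝ) ^ m = (p : ℝ) ^ (m - m') * (p : ℝ) ^ m' := by
      rw [← pow_add]
      congr 1
      omega
    rw [h3]
    field_simp
  -- the phase on the transversal class is trivial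
  have hJ : ∀ i ∈ cls p R r b η, ∀ ω, F i (T ω) = φ ω * F i ω := by
    intro i hi ω
    rw [cls, mem_filter] at hi
    rw [hT i hi.1 ω, hph]
    obtain ⟨G, hG⟩ := hQX
    obtain ⟨z, hz⟩ := hi.2
    have h3 : (p : ℤ) ^ m' ∣ Q.eval (r i - η) := by
      rw [hG, eval_mul, eval_pow, eval_X, hz, mul_pow, ← pow_mul]
      refine Dvd.dvd.mul_right (Dvd.dvd.mul_right ?_ _) _
      refine pow_dvd_pow _ ?_
      rw [mul_comm b]
      exact h2
    obtain ⟨q, hq⟩ := h3
    have h4 : ((Q.eval (r i - η) : ℤ) : ℝ) / (p : ℝ) ^ m' = ((q : ℤ) : ℝ) := by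
      rw [hq]
      push_cast
      field_simp
    rw [h4, hint, mul_one]
  have hJb : ∀ ω, bs F (cls p R r b η) (T ω) = φ ω * bs F (cls p R r b η) ω := by
    intro ω
    unfold bs
    rw [Finset.mul_sum]
    exact Finset.sum_congr rfl fun i hi => hJ i hi ω
  set θ : ℝ := (((taylor u0 Q).coeff 0 : ℤ) : ℝ) / (p : ℝ) ^ m' - ((P.coeff 0 : ℤ) : ℝ) / (p : ℝ) ^ (l * n') with hθ
  refine ⟨T, fun ω => ?_, fun ω => φ ω * e θ, fun ω => ?_, fun i hi ω => ?_⟩
  · show w (T ω) * ‖bs F (cls p R r b η) (T ω)‖ ^ (2 * u) = _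
    rw [hTw, hJb, norm_mul, hφ, one_mul]
  · rw [norm_mul, hφ, hn, one_mul]
  · rw [cls, mem_filter] at hi
    obtain ⟨x', hx'⟩ := hi.2
    have hdiv : (r i - ξ) / (p : ℤ) ^ a = x' := by
      rw [hx']
      exact Int.mul_ediv_cancel_left _ (pow_ne_zero _ hp0)
    show F i (T ω) = φ ω * e θ * e (((P.eval ((r i - ξ) / (p : ℤ) ^ a) : ℤ) : ℝ) / ((p ^ (l * n') : ℕ) : ℝ)) * F i ω
    rw [hT i hi.1 ω, hph, hdiv]
    have hmain : ∃ N : ℤ, ((Q.eval (r i - η) : ℤ) : ℝ) / (p : ℝ) ^ m' =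
        θ + ((P.eval x' : ℤ) : ℝ) / ((p ^ (l * n') : ℕ) : ℝ) + (N : ℝ) := by
      set t := taylor u0 Q with ht
      have h3 : Q.eval (r i - η) = t.eval ((p : ℤ) ^ a * x') := by
        rw [ht, taylor_eval, ← hx', hu0]
        congr 1
        ring
      have htd : t.natDegree < k + 1 := by
        rw [ht, natDegree_taylor]
        omega
      have h4 : t.eval ((p : ℤ) ^ a * x') = ∑ j ∈ range k, t.coeff (j + 1) * ((p : ℤ) ^ a * x') ^ (j + 1) +
          t.coeff 0 := by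
        rw [eval_eq_sum_range' htd, Finset.sum_range_succ']
        simp
      have h5 : P.eval x' = ∑ j ∈ range k, P.coeff (j + 1) * x' ^ (j + 1) + P.coeff 0 := by
        rw [eval_eq_sum_range' (n := k + 1) (by omega), Finset.sum_range_succ']
        simp
      have h6 : (p : ℤ) ^ m' ∣ t.eval ((p : ℤ) ^ a * x') - t.coeff 0 - (p : ℤ) ^ (l * a) * (P.eval x' - P.coeff 0) := by
        rw [h4, h5, add_sub_cancel_right, add_sub_cancel_right, Finset.mul_sum, ← Finset.sum_sub_distrib]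
        refine Finset.dvd_sum fun j _ => ?_
        by_cases hj : j + 1 ≤ l
        · obtain ⟨q, hq⟩ := hQc (j + 1) (by omega) hj
          refine ⟨q * ((p : ℤ) ^ a * x') ^ (j + 1), ?_⟩
          have h7 : t.coeff (j + 1) = P.coeff (j + 1) * (p : ℤ) ^ ((l - (j + 1)) * a) + (p : ℤ) ^ m' * q := by
            linear_combination hq
          have h8 : (p : ℤ) ^ (l * a) = (p : ℤ) ^ ((l - (j + 1)) * a) * ((p : ℤ) ^ a) ^ (j + 1) := by
            rw [← pow_mul, ← pow_add]
            congr 1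
            have : l = (l - (j + 1)) + (j + 1) := by omega
            nth_rewrite 1 [this]
            ring
          rw [h7, h8, mul_pow]
          ring
        · have h7 : P.coeff (j + 1) = 0 := coeff_eq_zero_of_natDegree_lt (by omega)
          rw [h7, zero_mul, mul_zero, sub_zero, mul_pow, ← pow_mul]
          refine Dvd.dvd.mul_left (Dvd.dvd.mul_right (pow_dvd_pow _ ?_) _) _
          refine le_trans h1 ?_
          rw [mul_comm a]
          exact Nat.mul_le_mul_right _ (by omega)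
      obtain ⟨N, hN⟩ := h6
      refine ⟨N, ?_⟩
      have h7 : ((t.eval ((p : ℤ) ^ a * x') : ℤ) : ℝ) = ((t.coeff 0 : ℤ) : ℝ) +
          (p : ℝ) ^ (l * a) * (((P.eval x' : ℤ) : ℝ) - ((P.coeff 0 : ℤ) : ℝ)) + (p : ℝ) ^ m' * (N : ℝ) := by
        have h8 : t.eval ((p : ℤ) ^ a * x') = t.coeff 0 + (p : ℤ) ^ (l * a) * (P.eval x' - P.coeff 0) +
            (p : ℤ) ^ m' * N := by linear_combination hN
        rw [h8]
        push_cast
        ring
      rw [h3, h7, hθ]
      have h9 : (p : ℝ) ^ m' = (p : ℝ) ^ (l * a) * (p : ℝ) ^ (l * n') := by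
        rw [← pow_add, hm']
        congr 1
        ring
      have h10 : (p : ℝ) ^ (l * a) ≠ 0 := pow_ne_zero _ hpR
      have h11 : (p : ℝ) ^ (l * n') ≠ 0 := pow_ne_zero _ hpR
      push_cast
      rw [h9]
      field_simp
      ring
    obtain ⟨N, hN⟩ := hmain
    rw [hN, hadd, hadd, hint]
    ring

end Pool.Agent.H65.VM
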